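import Pool.Agent.Lib.P42tw.Sound
import Pool.Agent.Lib.P42tw.Top

/-! # The root of the search tree is impossible -/

set_option autoImplicit false
set_option maxRecDepth 100000

namespace Pool.Agent.Lib.P42tw

theorem root {Γ : Type*} [Group Γ] {S : Set Γ}
    (hS : ∀ a ∈ S, a ∉ Subgroup.closure (S \ {a})) {φ : Nat → Γ}
    (hφ : ∀ x < 12, ∀ y < 12, φ x = φ y → x = y)
    (hE : ∀ e ∈ E, ∃ s ∈ S, φ e.2 = φ e.1 * s ∨ φ e.1 = φ e.2 * s) : False := by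
  have hnil : ∀ q ∈ ([] : List (List (Nat × Nat × Nat) × Nat)), Bad S φ q.2 q.1 := by simp
  have hK : ∀ q ∈ known, Bad S φ q.2 q.1 := by
    unfold known
    refine List.forall_mem_cons.2 ⟨bad_of_go hS hφ hE hnil rfl cert_0, ?_⟩
    refine List.forall_mem_cons.2 ⟨bad_of_go hS hφ hE hnil rfl cert_1, ?_⟩
    refine List.forall_mem_cons.2 ⟨bad_of_go hS hφ hE hnil rfl cert_2, ?_⟩
    refine List.forall_mem_cons.2 ⟨bad_of_go hS hφ hE hnil rfl cert_3, ?_⟩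
    refine List.forall_mem_cons.2 ⟨bad_of_go hS hφ hE hnil rfl cert_4, ?_⟩
    refine List.forall_mem_cons.2 ⟨bad_of_go hS hφ hE hnil rfl cert_5, ?_⟩
    refine List.forall_mem_cons.2 ⟨bad_of_go hS hφ hE hnil rfl cert_6, ?_⟩
    refine List.forall_mem_cons.2 ⟨bad_of_go hS hφ hE hnil rfl cert_7, ?_⟩
    refine List.forall_mem_cons.2 ⟨bad_of_go hS hφ hE hnil rfl cert_8, ?_⟩
    refine List.forall_mem_cons.2 ⟨bad_of_go hS hφ hE hnil rfl cert_9, ?_⟩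
    refine List.forall_mem_cons.2 ⟨bad_of_go hS hφ hE hnil rfl cert_10, ?_⟩
    refine List.forall_mem_cons.2 ⟨bad_of_go hS hφ hE hnil rfl cert_11, ?_⟩
    refine List.forall_mem_cons.2 ⟨bad_of_go hS hφ hE hnil rfl cert_12, ?_⟩
    refine List.forall_mem_cons.2 ⟨bad_of_go hS hφ hE hnil rfl cert_13, ?_⟩
    refine List.forall_mem_cons.2 ⟨bad_of_go hS hφ hE hnil rfl cert_14, ?_⟩
    refine List.forall_mem_cons.2 ⟨bad_of_go hS hφ hE hnil rfl cert_15, ?_⟩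
    refine List.forall_mem_cons.2 ⟨bad_of_go hS hφ hE hnil rfl cert_16, ?_⟩
    refine List.forall_mem_cons.2 ⟨bad_of_go hS hφ hE hnil rfl cert_17, ?_⟩
    refine List.forall_mem_cons.2 ⟨bad_of_go hS hφ hE hnil rfl cert_18, ?_⟩
    refine List.forall_mem_cons.2 ⟨bad_of_go hS hφ hE hnil rfl cert_19, ?_⟩
    refine List.forall_mem_cons.2 ⟨bad_of_go hS hφ hE hnil rfl cert_20, ?_⟩
    refine List.forall_mem_cons.2 ⟨bad_of_go hS hφ hE hnil rfl cert_21, ?_⟩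
    refine List.forall_mem_cons.2 ⟨bad_of_go hS hφ hE hnil rfl cert_22, ?_⟩
    refine List.forall_mem_cons.2 ⟨bad_of_go hS hφ hE hnil rfl cert_23, ?_⟩
    refine List.forall_mem_cons.2 ⟨bad_of_go hS hφ hE hnil rfl cert_24, ?_⟩
    refine List.forall_mem_cons.2 ⟨bad_of_go hS hφ hE hnil rfl cert_25, ?_⟩
    refine List.forall_mem_cons.2 ⟨bad_of_go hS hφ hE hnil rfl cert_26, ?_⟩
    refine List.forall_mem_cons.2 ⟨bad_of_go hS hφ hE hnil rfl cert_27, ?_⟩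
    refine List.forall_mem_cons.2 ⟨bad_of_go hS hφ hE hnil rfl cert_28, ?_⟩
    refine List.forall_mem_cons.2 ⟨bad_of_go hS hφ hE hnil rfl cert_29, ?_⟩
    refine List.forall_mem_cons.2 ⟨bad_of_go hS hφ hE hnil rfl cert_30, ?_⟩
    refine List.forall_mem_cons.2 ⟨bad_of_go hS hφ hE hnil rfl cert_31, ?_⟩
    refine List.forall_mem_cons.2 ⟨bad_of_go hS hφ hE hnil rfl cert_32, ?_⟩
    refine List.forall_mem_cons.2 ⟨bad_of_go hS hφ hE hnil rfl cert_33, ?_⟩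
    refine List.forall_mem_cons.2 ⟨bad_of_go hS hφ hE hnil rfl cert_34, ?_⟩
    refine List.forall_mem_cons.2 ⟨bad_of_go hS hφ hE hnil rfl cert_35, ?_⟩
    refine List.forall_mem_cons.2 ⟨bad_of_go hS hφ hE hnil rfl cert_36, ?_⟩
    refine List.forall_mem_cons.2 ⟨bad_of_go hS hφ hE hnil rfl cert_37, ?_⟩
    refine List.forall_mem_cons.2 ⟨bad_of_go hS hφ hE hnil rfl cert_38, ?_⟩
    refine List.forall_mem_cons.2 ⟨bad_of_go hS hφ hE hnil rfl cert_39, ?_⟩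
    refine List.forall_mem_cons.2 ⟨bad_of_go hS hφ hE hnil rfl cert_40, ?_⟩
    refine List.forall_mem_cons.2 ⟨bad_of_go hS hφ hE hnil rfl cert_41, ?_⟩
    refine List.forall_mem_cons.2 ⟨bad_of_go hS hφ hE hnil rfl cert_42, ?_⟩
    refine List.forall_mem_cons.2 ⟨bad_of_go hS hφ hE hnil rfl cert_43, ?_⟩
    refine List.forall_mem_cons.2 ⟨bad_of_go hS hφ hE hnil rfl cert_44, ?_⟩
    refine List.forall_mem_cons.2 ⟨bad_of_go hS hφ hE hnil rfl cert_45, ?_⟩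
    refine List.forall_mem_cons.2 ⟨bad_of_go hS hφ hE hnil rfl cert_46, ?_⟩
    refine List.forall_mem_cons.2 ⟨bad_of_go hS hφ hE hnil rfl cert_47, ?_⟩
    refine List.forall_mem_cons.2 ⟨bad_of_go hS hφ hE hnil rfl cert_48, ?_⟩
    refine List.forall_mem_cons.2 ⟨bad_of_go hS hφ hE hnil rfl cert_49, ?_⟩
    refine List.forall_mem_cons.2 ⟨bad_of_go hS hφ hE hnil rfl cert_50, ?_⟩
    refine List.forall_mem_cons.2 ⟨bad_of_go hS hφ hE hnil rfl cert_51, ?_⟩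
    refine List.forall_mem_cons.2 ⟨bad_of_go hS hφ hE hnil rfl cert_52, ?_⟩
    refine List.forall_mem_cons.2 ⟨bad_of_go hS hφ hE hnil rfl cert_53, ?_⟩
    refine List.forall_mem_cons.2 ⟨bad_of_go hS hφ hE hnil rfl cert_54, ?_⟩
    refine List.forall_mem_cons.2 ⟨bad_of_go hS hφ hE hnil rfl cert_55, ?_⟩
    refine List.forall_mem_cons.2 ⟨bad_of_go hS hφ hE hnil rfl cert_56, ?_⟩
    refine List.forall_mem_cons.2 ⟨bad_of_go hS hφ hE hnil rfl cert_57, ?_⟩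
    refine List.forall_mem_cons.2 ⟨bad_of_go hS hφ hE hnil rfl cert_58, ?_⟩
    refine List.forall_mem_cons.2 ⟨bad_of_go hS hφ hE hnil rfl cert_59, ?_⟩
    refine List.forall_mem_cons.2 ⟨bad_of_go hS hφ hE hnil rfl cert_60, ?_⟩
    refine List.forall_mem_cons.2 ⟨bad_of_go hS hφ hE hnil rfl cert_61, ?_⟩
    refine List.forall_mem_cons.2 ⟨bad_of_go hS hφ hE hnil rfl cert_62, ?_⟩
    refine List.forall_mem_cons.2 ⟨bad_of_go hS hφ hE hnil rfl cert_63, ?_⟩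
    refine List.forall_mem_cons.2 ⟨bad_of_go hS hφ hE hnil rfl cert_64, ?_⟩
    refine List.forall_mem_cons.2 ⟨bad_of_go hS hφ hE hnil rfl cert_65, ?_⟩
    refine List.forall_mem_cons.2 ⟨bad_of_go hS hφ hE hnil rfl cert_66, ?_⟩
    refine List.forall_mem_cons.2 ⟨bad_of_go hS hφ hE hnil rfl cert_67, ?_⟩
    refine List.forall_mem_cons.2 ⟨bad_of_go hS hφ hE hnil rfl cert_68, ?_⟩
    refine List.forall_mem_cons.2 ⟨bad_of_go hS hφ hE hnil rfl cert_69, ?_⟩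
    refine List.forall_mem_cons.2 ⟨bad_of_go hS hφ hE hnil rfl cert_70, ?_⟩
    refine List.forall_mem_cons.2 ⟨bad_of_go hS hφ hE hnil rfl cert_71, ?_⟩
    refine List.forall_mem_cons.2 ⟨bad_of_go hS hφ hE hnil rfl cert_72, ?_⟩
    refine List.forall_mem_cons.2 ⟨bad_of_go hS hφ hE hnil rfl cert_73, ?_⟩
    refine List.forall_mem_cons.2 ⟨bad_of_go hS hφ hE hnil rfl cert_74, ?_⟩
    refine List.forall_mem_cons.2 ⟨bad_of_go hS hφ hE hnil rfl cert_75, ?_⟩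
    refine List.forall_mem_cons.2 ⟨bad_of_go hS hφ hE hnil rfl cert_76, ?_⟩
    refine List.forall_mem_cons.2 ⟨bad_of_go hS hφ hE hnil rfl cert_77, ?_⟩
    refine List.forall_mem_cons.2 ⟨bad_of_go hS hφ hE hnil rfl cert_78, ?_⟩
    refine List.forall_mem_cons.2 ⟨bad_of_go hS hφ hE hnil rfl cert_79, ?_⟩
    refine List.forall_mem_cons.2 ⟨bad_of_go hS hφ hE hnil rfl cert_80, ?_⟩
    refine List.forall_mem_cons.2 ⟨bad_of_go hS hφ hE hnil rfl cert_81, ?_⟩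
    refine List.forall_mem_cons.2 ⟨bad_of_go hS hφ hE hnil rfl cert_82, ?_⟩
    refine List.forall_mem_cons.2 ⟨bad_of_go hS hφ hE hnil rfl cert_83, ?_⟩
    simp
  refine bad_of_go hS hφ hE hK rfl cert_top ⟨fun _ => 1, ?_, ?_, ?_, ?_⟩
  · intro c hc
    omega
  · intro c hc
    omega
  · simp
  · intro e he
    simp at he

end Pool.Agent.Lib.P42tw
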