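import Mathlib

/-!
# A checker for certificates that a graph is not a subgraph of a minimal Cayley graph
-/

set_option autoImplicit false

namespace Pool.Agent.Lib.P42tw

abbrev Word := List Nat

def flip (n : Nat) : Nat := bif (n % 2).beq 0 then n + 1 else n - 1

def push (l : Nat) (w : Word) : Word :=
  match w with
  | [] => [l]
  | a :: t => bif a.beq (flip l) then t else l :: a :: t

def mul : Word → Word → Word
  | [], w => w
  | a :: u, w => push a (mul u w)

def inv : Word → Word → Word
  | [], acc => acc
  | a :: u, acc => inv u (flip a :: acc)

def nth {α : Type} : List α → Nat → Option α
  | [], _ => none
  | a :: _, 0 => some a
  | _ :: t, n + 1 => nth t n

def next : List Nat → Nat × List Nat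
  | [] => (0, [])
  | c :: cs => bif c.ble 1 then next cs else (c % 64, (c / 64) :: cs)

def readWord : Nat → List Nat → Word × List Nat
  | 0, s => ([], s)
  | f + 1, s =>
    match next s with
    | (0, s1) => ([], s1)
    | (a + 1, s1) =>
      match readWord f s1 with
      | (w, s2) => (a :: w, s2)

/-- `A` is the list of the processed edges `(u, v, letter)`, the last one first, `n` its length. -/
def walk (n : Nat) (A : List (Nat × Nat × Nat)) : Word → Nat → Option (Nat × Word)
  | [], x => some (x, [])
  | d :: ds, x =>
    match nth A (n - 1 - d / 2) with
    | none => none
    | some (u, v, l) =>
      match (d % 2).beq 0 with
      | true =>
        match u.beq x with
        | true =>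
          match walk n A ds v with
          | none => none
          | some (y, w) => some (y, l :: w)
        | false => none
      | false =>
        match v.beq x with
        | true =>
          match walk n A ds u with
          | none => none
          | some (y, w) => some (y, flip l :: w)
        | false => none

def rels (n : Nat) (A : List (Nat × Nat × Nat)) : List (Nat × Word) → List Word
  | [] => []
  | (x, ds) :: cs =>
    match walk n A ds x with
    | some (y, w) =>
      match y.beq x with
      | true => w :: rels n A cs
      | false => []
    | none => []

def items (ok : Nat → Bool) (R L : List Word) : Nat → Word → List Nat → Option (Word × List Nat)
  | 0, _, _ => none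
  | f + 1, acc, s =>
    match next s with
    | (0, s1) => some (acc, s1)
    | (1, s1) =>
      match next s1 with
      | (l, s2) =>
        match ok l with
        | true => items ok R L f (push l acc) s2
        | false => none
    | (2, s1) =>
      match next s1 with
      | (i, s2) =>
        match next s2 with
        | (i', s3) =>
          match nth L (i + 64 * i') with
          | none => none
          | some w => items ok R L f (mul w acc) s3
    | (3, s1) =>
      match next s1 with
      | (i, s2) =>
        match next s2 with
        | (i', s3) =>
          match nth L (i + 64 * i') with
          | none => none
          | some w => items ok R L f (mul (inv w []) acc) s3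
    | (4, s1) =>
      match next s1 with
      | (j, s2) =>
        match readWord 200 s2 with
        | (c, s3) =>
          match nth R j with
          | none => none
          | some r => items ok R L f (mul c (mul r (mul (inv c []) acc))) s3
    | (5, s1) =>
      match next s1 with
      | (j, s2) =>
        match readWord 200 s2 with
        | (c, s3) =>
          match nth R j with
          | none => none
          | some r => items ok R L f (mul c (mul (inv r []) (mul (inv c []) acc))) s3
    | _ => none

def lemmas (ok : Nat → Bool) (R : List Word) : Nat → List Word → List Nat →
    Option (List Word × List Nat)
  | 0, _, _ => none
  | f + 1, L, s =>
    match next s with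
    | (0, s1) => some (L, s1)
    | (_ + 1, s1) =>
      match items ok R L 400 [] s1 with
      | none => none
      | some (w, s2) => lemmas ok R f (w :: L) s2

def okK (k c l : Nat) : Bool :=
  match (l / 2).beq c with
  | true => false
  | false => (l / 2 + 1).ble k

def allB (p : Nat → Bool) : Word → Bool
  | [] => true
  | a :: w =>
    match p a with
    | true => allB p w
    | false => false

def eqW : Word → Word → Bool
  | [], [] => true
  | a :: u, b :: v =>
    match a.beq b with
    | true => eqW u v
    | false => false
  | _, _ => false

def hd : List Word → Word
  | [] => []
  | a :: _ => a

def leaf (C : List (Nat × Word)) (N n : Nat) (A : List (Nat × Nat × Nat)) (k : Nat)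
    (s : List Nat) : Option (List Nat) :=
  match next s with
  | (0, s1) =>
    match lemmas (fun _ => false) (rels n A C) 200 [] s1 with
    | none => none
    | some (L, s2) =>
      match next s2 with
      | (x, s3) =>
        match readWord 60 s3 with
        | (d1, s4) =>
          match readWord 60 s4 with
          | (d2, s5) =>
            match walk n A d1 x with
            | none => none
            | some (y, w) =>
              match walk n A d2 x with
              | none => none
              | some (z, v) =>
                match y.beq z with
                | true => none
                | false =>
                  match (y + 1).ble N with
                  | false => none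
                  | true =>
                    match (z + 1).ble N with
                    | false => none
                    | true =>
                      match eqW (mul w (inv v [])) (hd L) with
                      | true => some s5
                      | false => none
  | (1, s1) =>
    match next s1 with
    | (c, s2) =>
      match (c + 1).ble k with
      | false => none
      | true =>
        match lemmas (okK k c) (rels n A C) 200 [] s2 with
        | none => none
        | some (L, s3) =>
          match eqW (hd L) [2 * c] with
          | true => some s3
          | false => none
  | (2, s1) =>
    match next s1 with
    | (x, s2) =>
      match readWord 60 s2 with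
      | (ds, s3) =>
        match walk n A ds x with
        | some (y, l :: p) =>
          match y.beq x with
          | false => none
          | true =>
            match (l / 2 + 1).ble k with
            | false => none
            | true =>
              match allB (okK k (l / 2)) p with
              | true => some s3
              | false => none
        | _ => none
  | _ => none

/-- the number of classes after letter `l` -/
def kk (k l : Nat) : Nat :=
  match l.beq (2 * k) with
  | true => k + 1
  | false => k

/-- equality of states -/
def eqA : List (Nat × Nat × Nat) → List (Nat × Nat × Nat) → Bool
  | [], [] => true
  | (a, b, c) :: u, (a', b', c') :: v =>
    match a.beq a' with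
    | false => false
    | true =>
      match b.beq b' with
      | false => false
      | true =>
        match c.beq c' with
        | false => false
        | true => eqA u v
  | _, _ => false

/-- `r` letters remain to be treated: the letters `2k + 1 - r, …, 2k`. -/
def go (E : List (Nat × Nat)) (C : List (Nat × Word)) (N : Nat)
    (known : List (List (Nat × Nat × Nat) × Nat)) :
    Nat → Nat → List (Nat × Nat × Nat) → Nat → Nat → List Nat → Option (List Nat)
  | 0, _, _, _, _, _ => none
  | _ + 1, _, _, _, 0, s => some s
  | f + 1, n, A, k, r + 1, s =>
    match nth E n with
    | none => none
    | some (u, v) =>
      match next s with
      | (0, _) => none
      | (1, s1) =>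
        match leaf C N (n + 1) ((u, v, 2 * k - r) :: A) (kk k (2 * k - r)) s1 with
        | none => none
        | some s2 => go E C N known f n A k r s2
      | (2, s1) =>
        match go E C N known f (n + 1) ((u, v, 2 * k - r) :: A) (kk k (2 * k - r))
            (2 * kk k (2 * k - r) + 1) s1 with
        | none => none
        | some s2 => go E C N known f n A k r s2
      | (_ + 3, s1) =>
        match next s1 with
        | (i, s2) =>
          match next s2 with
          | (j, s3) =>
            match nth known (i + 64 * j) with
            | none => none
            | some (B, k') =>
              match eqA B ((u, v, 2 * k - r) :: A) with
              | false => none
              | true =>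
                match k'.beq (kk k (2 * k - r)) with
                | false => none
                | true => go E C N known f n A k r s3

end Pool.Agent.Lib.P42tw
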