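import Pool.Agent.Lib.P42tw.Check
/-! # The edges of the twinplex graph and seven cycles -/
set_option autoImplicit false
set_option maxRecDepth 1000000
namespace Pool.Agent.Lib.P42tw
def E : List (Nat × Nat) :=
  [(0, 1), (1, 2), (0, 3), (2, 4), (4, 3), (0, 5), (4, 6), (6, 5), (1, 7), (3, 8), (8, 7), (8, 9), (9, 5), (7, 10), (6, 10), (9, 11), (11, 10), (2, 11)]

def C : List (Nat × Word) :=
  [(4, [8, 5, 0, 2, 6]),
    (6, [14, 11, 4, 9, 12]),
    (8, [20, 17, 1, 4, 18]),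
    (9, [24, 11, 4, 18, 22]),
    (6, [28, 27, 17, 1, 10, 15]),
    (11, [32, 27, 21, 22, 30]),
    (2, [34, 32, 27, 17, 2])]

end Pool.Agent.Lib.P42tw
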