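import Pool.Agent.Lib.P42tw.Check

/-!
# Soundness of the checker
-/

set_option autoImplicit false

namespace Pool.Agent.Lib.P42tw

variable {Γ : Type*} [Group Γ]

def ev (g : Nat → Γ) (l : Nat) : Γ := if l % 2 = 0 then g (l / 2) else (g (l / 2))⁻¹

def evW (g : Nat → Γ) : Word → Γ
  | [] => 1
  | a :: w => ev g a * evW g w

theorem beq_true {a b : Nat} (h : a.beq b = true) : a = b := Nat.eq_of_beq_eq_true h

theorem beq_false {a b : Nat} (h : a.beq b = false) : a ≠ b := Nat.ne_of_beq_eq_false h

theorem ble_true {a b : Nat} (h : a.ble b = true) : a ≤ b := Nat.le_of_ble_eq_true h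

theorem ev_flip (g : Nat → Γ) (l : Nat) : ev g (flip l) = (ev g l)⁻¹ := by
  unfold ev flip
  rcases Nat.even_or_odd' l with ⟨c, rfl | rfl⟩
  · have h1 : (2 * c) % 2 = 0 := by omega
    have h2 : (2 * c + 1) % 2 = 1 := by omega
    have h3 : (2 * c + 1) / 2 = c := by omega
    have h4 : (2 * c) / 2 = c := by omega
    rw [h1]
    simp [h2, h3, h4]
  · have h2 : (2 * c + 1) % 2 = 1 := by omega
    have h3 : (2 * c + 1) / 2 = c := by omega
    have h5 : Nat.beq 1 0 = false := rfl
    rw [h2, h5]
    simp only [cond_false, h3]
    simp

theorem evW_push (g : Nat → Γ) (l : Nat) (w : Word) : evW g (push l w) = ev g l * evW g w := by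
  unfold push
  match w with
  | [] => rfl
  | a :: t =>
    cases h : a.beq (flip l) with
    | true =>
      have h1 := beq_true h
      simp only [h, cond_true, evW]
      rw [h1, ev_flip]
      group
    | false =>
      simp only [h, cond_false, evW]

theorem evW_mul (g : Nat → Γ) (u w : Word) : evW g (mul u w) = evW g u * evW g w := by
  induction u with
  | nil => simp [mul, evW]
  | cons a u ih =>
    rw [mul, evW_push, ih, evW, mul_assoc]

theorem evW_inv (g : Nat → Γ) (u acc : Word) : evW g (inv u acc) = (evW g u)⁻¹ * evW g acc := by
  induction u generalizing acc with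
  | nil => simp [inv, evW]
  | cons a u ih =>
    rw [inv, ih, evW, evW, ev_flip]
    group

theorem nth_mem {α : Type} {l : List α} {n : Nat} {a : α} (h : nth l n = some a) : a ∈ l := by
  induction l generalizing n with
  | nil => simp [nth] at h
  | cons b t ih =>
    cases n with
    | zero =>
      simp only [nth, Option.some.injEq] at h
      rw [h]
      exact List.mem_cons_self
    | succ n =>
      exact List.mem_cons_of_mem _ (ih h)

/-- the letters of the edges of `A` are correct -/
def Good (φ g : Nat → Γ) (A : List (Nat × Nat × Nat)) : Prop :=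
  ∀ e ∈ A, φ e.2.1 = φ e.1 * ev g e.2.2

theorem walk_sound {φ g : Nat → Γ} {A : List (Nat × Nat × Nat)} (hA : Good φ g A) (n : Nat)
    (ds : Word) : ∀ (x y : Nat) (w : Word), walk n A ds x = some (y, w) →
      φ y = φ x * evW g w := by
  induction ds with
  | nil =>
    intro x y w h
    simp only [walk, Option.some.injEq, Prod.mk.injEq] at h
    obtain ⟨rfl, rfl⟩ := h
    simp [evW]
  | cons d ds ih =>
    intro x y w h
    unfold walk at h
    split at h
    · exact absurd h (by simp)
    · rename_i u v l hn
      have hm := hA _ (nth_mem hn)
      simp only at hm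
      split at h
      · split at h
        · rename_i hux
          have hux := beq_true hux
          split at h
          · exact absurd h (by simp)
          · rename_i y' w' hw
            simp only [Option.some.injEq, Prod.mk.injEq] at h
            obtain ⟨rfl, rfl⟩ := h
            rw [ih _ _ _ hw, hm, hux, evW, mul_assoc]
        · exact absurd h (by simp)
      · split at h
        · rename_i hux
          have hux := beq_true hux
          split at h
          · exact absurd h (by simp)
          · rename_i y' w' hw
            simp only [Option.some.injEq, Prod.mk.injEq] at h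
            obtain ⟨rfl, rfl⟩ := h
            rw [ih _ _ _ hw, ← hux, hm, evW, ev_flip]
            group
        · exact absurd h (by simp)

theorem rels_sound {φ g : Nat → Γ} {A : List (Nat × Nat × Nat)} (hA : Good φ g A) (n : Nat)
    (C : List (Nat × Word)) : ∀ r ∈ rels n A C, evW g r = 1 := by
  induction C with
  | nil => simp [rels]
  | cons c C ih =>
    intro r hr
    obtain ⟨x, ds⟩ := c
    unfold rels at hr
    split at hr
    · rename_i y w hw
      split at hr
      · rename_i hyx
        have hyx := beq_true hyx
        rcases List.mem_cons.1 hr with rfl | hr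
        · have h := walk_sound hA n _ _ _ _ hw
          rw [hyx] at h
          exact (mul_eq_left.1 h.symm)
        · exact ih r hr
      · simp at hr
    · simp at hr

theorem items_sound {g : Nat → Γ} {K : Subgroup Γ} {ok : Nat → Bool} {R L : List Word}
    (hok : ∀ l, ok l = true → ev g l ∈ K) (hR : ∀ r ∈ R, evW g r = 1)
    (hL : ∀ w ∈ L, evW g w ∈ K) (f : Nat) : ∀ (acc : Word) (s : List Nat) (w : Word)
      (s' : List Nat), evW g acc ∈ K → items ok R L f acc s = some (w, s') → evW g w ∈ K := by
  induction f with
  | zero =>
    intro acc s w s' _ h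
    simp [items] at h
  | succ f ih =>
    intro acc s w s' hacc h
    unfold items at h
    split at h
    · simp only [Option.some.injEq, Prod.mk.injEq] at h
      obtain ⟨rfl, -⟩ := h
      exact hacc
    · split at h
      split at h
      · rename_i hl
        refine ih _ _ _ _ ?_ h
        rw [evW_push]
        exact K.mul_mem (hok _ hl) hacc
      · exact absurd h (by simp)
    · split at h
      split at h
      split at h
      · exact absurd h (by simp)
      · rename_i hw
        refine ih _ _ _ _ ?_ h
        rw [evW_mul]
        exact K.mul_mem (hL _ (nth_mem hw)) hacc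
    · split at h
      split at h
      split at h
      · exact absurd h (by simp)
      · rename_i hw
        refine ih _ _ _ _ ?_ h
        rw [evW_mul, evW_inv]
        exact K.mul_mem (K.mul_mem (K.inv_mem (hL _ (nth_mem hw))) K.one_mem) hacc
    · split at h
      split at h
      split at h
      · exact absurd h (by simp)
      · rename_i hw
        refine ih _ _ _ _ ?_ h
        rw [evW_mul, evW_mul, evW_mul, evW_inv, hR _ (nth_mem hw)]
        simpa [evW] using hacc
    · split at h
      split at h
      split at h
      · exact absurd h (by simp)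
      · rename_i hw
        refine ih _ _ _ _ ?_ h
        rw [evW_mul, evW_mul, evW_mul, evW_inv, evW_inv, hR _ (nth_mem hw)]
        simpa [evW] using hacc
    · exact absurd h (by simp)

theorem lemmas_sound {g : Nat → Γ} {K : Subgroup Γ} {ok : Nat → Bool} {R : List Word}
    (hok : ∀ l, ok l = true → ev g l ∈ K) (hR : ∀ r ∈ R, evW g r = 1) (f : Nat) :
    ∀ (L : List Word) (s : List Nat) (L' : List Word) (s' : List Nat),
      (∀ w ∈ L, evW g w ∈ K) → lemmas ok R f L s = some (L', s') → ∀ w ∈ L', evW g w ∈ K := by
  induction f with
  | zero =>
    intro L s L' s' _ h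
    simp [lemmas] at h
  | succ f ih =>
    intro L s L' s' hL h
    unfold lemmas at h
    split at h
    · simp only [Option.some.injEq, Prod.mk.injEq] at h
      obtain ⟨rfl, -⟩ := h
      exact hL
    · split at h
      · exact absurd h (by simp)
      · rename_i w s2 hw
        refine ih _ _ _ _ ?_ h
        intro w' hw'
        rcases List.mem_cons.1 hw' with rfl | hw'
        · exact items_sound hok hR hL _ [] _ _ _ (show evW g [] ∈ K from K.one_mem) hw
        · exact hL _ hw'

theorem eqW_sound : ∀ (u v : Word), eqW u v = true → u = v
  | [], [], _ => rfl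
  | [], _ :: _, h => by simp [eqW] at h
  | _ :: _, [], h => by simp [eqW] at h
  | a :: u, b :: v, h => by
    unfold eqW at h
    split at h
    · rename_i hab
      rw [beq_true hab, eqW_sound u v h]
    · exact absurd h (by simp)

theorem allB_sound {p : Nat → Bool} : ∀ (w : Word), allB p w = true → ∀ a ∈ w, p a = true
  | [], _ => by simp
  | a :: w, h => by
    unfold allB at h
    split at h
    · rename_i ha
      intro b hb
      rcases List.mem_cons.1 hb with rfl | hb
      · exact ha
      · exact allB_sound w h b hb
    · exact absurd h (by simp)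

theorem evW_mem {g : Nat → Γ} {K : Subgroup Γ} : ∀ (w : Word), (∀ a ∈ w, ev g a ∈ K) →
    evW g w ∈ K
  | [], _ => K.one_mem
  | a :: w, h => K.mul_mem (h a List.mem_cons_self)
    (evW_mem w fun b hb => h b (List.mem_cons_of_mem _ hb))

theorem hd_mem {g : Nat → Γ} {K : Subgroup Γ} {L : List Word} (h : ∀ w ∈ L, evW g w ∈ K) :
    evW g (hd L) ∈ K := by
  cases L with
  | nil => exact K.one_mem
  | cons a L => exact h a List.mem_cons_self

/-- The letters of the first `k` classes are generators of pairwise different colours. -/
structure Cons (S : Set Γ) (φ g : Nat → Γ) (k : Nat) (A : List (Nat × Nat × Nat)) : Prop where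
  mem : ∀ c < k, g c ∈ S ∨ (g c)⁻¹ ∈ S
  ne : ∀ c < k, ∀ d < k, c ≠ d → g c ≠ g d ∧ g c ≠ (g d)⁻¹
  lt : ∀ e ∈ A, e.2.2 / 2 < k
  rel : Good φ g A

def Bad (S : Set Γ) (φ : Nat → Γ) (k : Nat) (A : List (Nat × Nat × Nat)) : Prop :=
  ¬ ∃ g : Nat → Γ, Cons S φ g k A

def KK (g : Nat → Γ) (k c : Nat) : Subgroup Γ := Subgroup.closure {x | ∃ d < k, d ≠ c ∧ x = g d}

theorem okK_sound {g : Nat → Γ} {k c l : Nat} (h : okK k c l = true) : ev g l ∈ KK g k c := by
  unfold okK at h
  split at h
  · exact absurd h (by simp)
  · rename_i h1
    have h1 := beq_false h1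
    have h2 := ble_true h
    have h3 : g (l / 2) ∈ KK g k c := Subgroup.subset_closure ⟨l / 2, by omega, h1, rfl⟩
    unfold ev
    split
    · exact h3
    · exact Subgroup.inv_mem _ h3

theorem nonmin {S : Set Γ} (hS : ∀ a ∈ S, a ∉ Subgroup.closure (S \ {a})) {φ g : Nat → Γ}
    {k : Nat} {A : List (Nat × Nat × Nat)} (h : Cons S φ g k A) {c : Nat} (hc : c < k) :
    g c ∉ KK g k c := by
  intro hm
  rcases h.mem c hc with hs | hs
  · refine hS _ hs ?_
    refine (Subgroup.closure_le _).2 ?_ hm
    rintro x ⟨d, hd, hdc, rfl⟩
    rcases h.mem d hd with h1 | h1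
    · exact Subgroup.subset_closure ⟨h1, (h.ne d hd c hc hdc).1⟩
    · refine (Subgroup.inv_mem_iff _).1 (Subgroup.subset_closure ⟨h1, ?_⟩)
      intro h2
      exact (h.ne c hc d hd hdc.symm).2 (by rw [← h2])
  · refine hS _ hs ?_
    refine Subgroup.inv_mem _ ((Subgroup.closure_le _).2 ?_ hm)
    rintro x ⟨d, hd, hdc, rfl⟩
    rcases h.mem d hd with h1 | h1
    · refine Subgroup.subset_closure ⟨h1, ?_⟩
      exact (h.ne d hd c hc hdc).2
    · refine (Subgroup.inv_mem_iff _).1 (Subgroup.subset_closure ⟨h1, ?_⟩)
      intro h2
      exact (h.ne d hd c hc hdc).1 (inv_injective h2)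

theorem leaf_sound {S : Set Γ} (hS : ∀ a ∈ S, a ∉ Subgroup.closure (S \ {a})) {φ : Nat → Γ}
    {N : Nat} (hφ : ∀ x < N, ∀ y < N, φ x = φ y → x = y) {C : List (Nat × Word)} {n : Nat}
    {A : List (Nat × Nat × Nat)} {k : Nat} {s s' : List Nat}
    (h : leaf C N n A k s = some s') : Bad S φ k A := by
  rintro ⟨g, hg⟩
  have hR := rels_sound hg.rel n C
  unfold leaf at h
  split at h
  · split at h
    · exact absurd h (by simp)
    · rename_i L s2 hL
      have h0 : ∀ l, (fun _ : Nat => false) l = true → ev g l ∈ (⊥ : Subgroup Γ) := by
        intro l hl
        exact absurd hl (by simp)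
      have h1 := hd_mem (lemmas_sound (K := (⊥ : Subgroup Γ)) h0 hR _ _ _ _ _ (by simp) hL)
      split at h
      split at h
      split at h
      split at h
      · exact absurd h (by simp)
      · rename_i y w hw
        split at h
        · exact absurd h (by simp)
        · rename_i z v hv
          split at h
          · exact absurd h (by simp)
          · rename_i hyz
            split at h
            · exact absurd h (by simp)
            · rename_i hy
              split at h
              · exact absurd h (by simp)
              · rename_i hz
                split at h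
                · rename_i he
                  have he := eqW_sound _ _ he
                  rw [← he, evW_mul, evW_inv, Subgroup.mem_bot] at h1
                  have h2 := walk_sound hg.rel n _ _ _ _ hw
                  have h3 := walk_sound hg.rel n _ _ _ _ hv
                  have h4 : evW g w = evW g v := by
                    have h5 : evW g ([] : Word) = 1 := rfl
                    rw [h5, mul_one] at h1
                    exact mul_inv_eq_one.1 h1
                  have hy := ble_true hy
                  have hz := ble_true hz
                  exact beq_false hyz (hφ y (by omega) z (by omega) (by rw [h2, h3, h4]))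
                · exact absurd h (by simp)
  · split at h
    split at h
    · exact absurd h (by simp)
    · rename_i hck
      have hck := ble_true hck
      split at h
      · exact absurd h (by simp)
      · rename_i L s3 hL
        split at h
        · rename_i he
          have he := eqW_sound _ _ he
          have h1 := hd_mem (lemmas_sound (fun l hl => okK_sound hl) hR _ _ _ _ _ (by simp) hL)
          rw [he] at h1
          refine nonmin hS hg (Nat.lt_of_succ_le hck) ?_
          simpa [evW, ev] using h1
        · exact absurd h (by simp)
  · split at h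
    split at h
    split at h
    · rename_i y l p hw
      split at h
      · exact absurd h (by simp)
      · rename_i hyx
        have hyx := beq_true hyx
        split at h
        · exact absurd h (by simp)
        · rename_i hl
          have hl := ble_true hl
          split at h
          · rename_i hp
            have hp := allB_sound _ hp
            have h2 := walk_sound hg.rel n _ _ _ _ hw
            rw [hyx] at h2
            have h3 : ev g l * evW g p = 1 := (mul_eq_left.1 h2.symm)
            have h4 : evW g p ∈ KK g k (l / 2) := evW_mem p fun a ha => okK_sound (hp a ha)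
            have h5 : ev g l ∈ KK g k (l / 2) := by
              rw [mul_eq_one_iff_eq_inv] at h3
              rw [h3]
              exact Subgroup.inv_mem _ h4
            refine nonmin hS hg (Nat.lt_of_succ_le hl) ?_
            unfold ev at h5
            split at h5
            · exact h5
            · exact (Subgroup.inv_mem_iff _).1 h5
          · exact absurd h (by simp)
    · exact absurd h (by simp)
  · exact absurd h (by simp)

theorem eqA_sound : ∀ (u v : List (Nat × Nat × Nat)), eqA u v = true → u = v
  | [], [], _ => rfl
  | [], _ :: _, h => by simp [eqA] at h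
  | _ :: _, [], h => by simp [eqA] at h
  | (a, b, c) :: u, (a', b', c') :: v, h => by
    unfold eqA at h
    split at h
    · exact absurd h (by simp)
    · rename_i h1
      split at h
      · exact absurd h (by simp)
      · rename_i h2
        split at h
        · exact absurd h (by simp)
        · rename_i h3
          rw [beq_true h1, beq_true h2, beq_true h3, eqA_sound u v h]

/-- If all letters of the next edge are impossible then the state is impossible. -/
theorem bad_of_children {S : Set Γ} {φ : Nat → Γ} {k u v : Nat} {A : List (Nat × Nat × Nat)}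
    (huv : ∃ s ∈ S, φ v = φ u * s ∨ φ u = φ v * s)
    (h : ∀ l, l ≤ 2 * k → Bad S φ (kk k l) ((u, v, l) :: A)) : Bad S φ k A := by
  rintro ⟨g, hg⟩
  obtain ⟨t, ht, hts⟩ : ∃ t : Γ, φ v = φ u * t ∧ (t ∈ S ∨ t⁻¹ ∈ S) := by
    obtain ⟨s, hs, h1 | h1⟩ := huv
    · exact ⟨s, h1, Or.inl hs⟩
    · exact ⟨s⁻¹, by rw [h1]; group, Or.inr (by rwa [inv_inv])⟩
  by_cases h1 : ∃ c < k, t = g c
  · obtain ⟨c, hc, rfl⟩ := h1
    have hk : kk k (2 * c) = k := by
      unfold kk
      split
      · rename_i h2
        have := beq_true h2
        omega
      · rfl
    refine h (2 * c) (by omega) ⟨g, ?_⟩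
    rw [hk]
    refine ⟨hg.mem, hg.ne, ?_, ?_⟩
    · intro e he
      rcases List.mem_cons.1 he with rfl | he
      · show 2 * c / 2 < k
        omega
      · exact hg.lt e he
    · intro e he
      rcases List.mem_cons.1 he with rfl | he
      · show φ v = φ u * ev g (2 * c)
        rw [ht]
        simp [ev]
      · exact hg.rel e he
  · by_cases h2 : ∃ c < k, t = (g c)⁻¹
    · obtain ⟨c, hc, rfl⟩ := h2
      have hk : kk k (2 * c + 1) = k := by
        unfold kk
        split
        · rename_i h2
          have := beq_true h2
          omega
        · rfl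
      refine h (2 * c + 1) (by omega) ⟨g, ?_⟩
      rw [hk]
      refine ⟨hg.mem, hg.ne, ?_, ?_⟩
      · intro e he
        rcases List.mem_cons.1 he with rfl | he
        · show (2 * c + 1) / 2 < k
          omega
        · exact hg.lt e he
      · intro e he
        rcases List.mem_cons.1 he with rfl | he
        · show φ v = φ u * ev g (2 * c + 1)
          have h3 : (2 * c + 1) % 2 = 1 := by omega
          have h4 : (2 * c + 1) / 2 = c := by omega
          rw [ht]
          unfold ev
          rw [h3, h4]
          simp
        · exact hg.rel e he
    · have hk : kk k (2 * k) = k + 1 := by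
        unfold kk
        split
        · rfl
        · rename_i h2
          exact absurd rfl (beq_false h2)
      have hgk : ∀ c < k, Function.update g k t c = g c := fun c hc =>
        Function.update_of_ne (by omega) _ _
      have hkk : Function.update g k t k = t := Function.update_self _ _ _
      refine h (2 * k) le_rfl ⟨Function.update g k t, ?_⟩
      rw [hk]
      refine ⟨?_, ?_, ?_, ?_⟩
      · intro c hc
        rcases Nat.lt_succ_iff_lt_or_eq.1 hc with hc | rfl
        · rw [hgk c hc]
          exact hg.mem c hc
        · rw [hkk]
          exact hts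
      · intro c hc d hd hcd
        rcases Nat.lt_succ_iff_lt_or_eq.1 hc with hc | rfl
        · rcases Nat.lt_succ_iff_lt_or_eq.1 hd with hd | rfl
          · rw [hgk c hc, hgk d hd]
            exact hg.ne c hc d hd hcd
          · rw [hgk c hc, hkk]
            exact ⟨fun h3 => h1 ⟨c, hc, h3.symm⟩, fun h3 => h2 ⟨c, hc, by rw [h3, inv_inv]⟩⟩
        · rcases Nat.lt_succ_iff_lt_or_eq.1 hd with hd | rfl
          · rw [hgk d hd, hkk]
            exact ⟨fun h3 => h1 ⟨d, hd, h3⟩, fun h3 => h2 ⟨d, hd, h3⟩⟩
          · exact absurd rfl hcd
      · intro e he
        rcases List.mem_cons.1 he with rfl | he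
        · show 2 * k / 2 < k + 1
          omega
        · exact (hg.lt e he).trans (Nat.lt_succ_self _)
      · intro e he
        rcases List.mem_cons.1 he with rfl | he
        · show φ v = φ u * ev (Function.update g k t) (2 * k)
          rw [ht]
          simp [ev]
        · have h3 := hg.lt e he
          have h4 : ev (Function.update g k t) e.2.2 = ev g e.2.2 := by
            unfold ev
            rw [hgk _ h3]
          rw [h4]
          exact hg.rel e he

theorem go_sound {S : Set Γ} (hS : ∀ a ∈ S, a ∉ Subgroup.closure (S \ {a})) {φ : Nat → Γ}
    {N : Nat} (hφ : ∀ x < N, ∀ y < N, φ x = φ y → x = y) {E : List (Nat × Nat)}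
    (hE : ∀ e ∈ E, ∃ s ∈ S, φ e.2 = φ e.1 * s ∨ φ e.1 = φ e.2 * s) {C : List (Nat × Word)}
    {known : List (List (Nat × Nat × Nat) × Nat)} (hK : ∀ q ∈ known, Bad S φ q.2 q.1) (f : Nat) :
    ∀ (n : Nat) (A : List (Nat × Nat × Nat)) (k r : Nat) (s s' : List Nat),
      go E C N known f n A k r s = some s' → r ≤ 2 * k + 1 →
      ∀ l, 2 * k + 1 - r ≤ l → l ≤ 2 * k → ∃ u v, nth E n = some (u, v) ∧
        Bad S φ (kk k l) ((u, v, l) :: A) := by
  induction f with
  | zero =>
    intro n A k r s s' h
    simp [go] at h
  | succ f ih =>
    intro n A k r s s' h hr l hl1 hl2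
    cases r with
    | zero => omega
    | succ r =>
      have key : ∀ s2, go E C N known f n A k r s2 = some s' →
          ∀ u v, nth E n = some (u, v) → Bad S φ (kk k (2 * k - r)) ((u, v, 2 * k - r) :: A) →
          ∃ u v, nth E n = some (u, v) ∧ Bad S φ (kk k l) ((u, v, l) :: A) := by
        intro s2 h1 u v huv h2
        by_cases h3 : l = 2 * k - r
        · rw [h3]
          exact ⟨u, v, huv, h2⟩
        · exact ih n A k r s2 s' h1 (by omega) l (by omega) hl2
      unfold go at h
      split at h
      · exact absurd h (by simp)
      · rename_i u v huv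
        split at h
        · exact absurd h (by simp)
        · split at h
          · exact absurd h (by simp)
          · rename_i s2 h1
            exact key _ h u v huv (leaf_sound hS hφ h1)
        · split at h
          · exact absurd h (by simp)
          · rename_i s2 h1
            refine key _ h u v huv ?_
            have h2 := ih _ _ _ _ _ _ h1 le_rfl
            obtain ⟨u', v', h3, -⟩ := h2 0 (by omega) (by omega)
            refine bad_of_children (hE _ (nth_mem h3)) fun l' hl' => ?_
            obtain ⟨u'', v'', h4, h5⟩ := h2 l' (by omega) hl'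
            rw [h3] at h4
            simp only [Option.some.injEq, Prod.mk.injEq] at h4
            obtain ⟨rfl, rfl⟩ := h4
            exact h5
        · split at h
          split at h
          split at h
          · exact absurd h (by simp)
          · rename_i B k' hB
            split at h
            · exact absurd h (by simp)
            · rename_i hBA
              split at h
              · exact absurd h (by simp)
              · rename_i hkk
                refine key _ h u v huv ?_
                have h2 := hK _ (nth_mem hB)
                rw [← eqA_sound _ _ hBA, ← beq_true hkk]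
                exact h2

/-- A certificate for a state proves that the state is impossible. -/
theorem bad_of_go {S : Set Γ} (hS : ∀ a ∈ S, a ∉ Subgroup.closure (S \ {a})) {φ : Nat → Γ}
    {N : Nat} (hφ : ∀ x < N, ∀ y < N, φ x = φ y → x = y) {E : List (Nat × Nat)}
    (hE : ∀ e ∈ E, ∃ s ∈ S, φ e.2 = φ e.1 * s ∨ φ e.1 = φ e.2 * s) {C : List (Nat × Word)}
    {known : List (List (Nat × Nat × Nat) × Nat)} (hK : ∀ q ∈ known, Bad S φ q.2 q.1) {f n : Nat}
    {A : List (Nat × Nat × Nat)} {k r : Nat} {s : List Nat} (hr : r = 2 * k + 1)
    (h : (go E C N known f n A k r s).isSome = true) : Bad S φ k A := by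
  obtain ⟨s', h⟩ := Option.isSome_iff_exists.1 h
  subst hr
  have h2 := go_sound hS hφ hE hK f n A k (2 * k + 1) s s' h le_rfl
  obtain ⟨u', v', h3, -⟩ := h2 0 (by omega) (by omega)
  refine bad_of_children (hE _ (nth_mem h3)) fun l' hl' => ?_
  obtain ⟨u'', v'', h4, h5⟩ := h2 l' (by omega) hl'
  rw [h3] at h4
  simp only [Option.some.injEq, Prod.mk.injEq] at h4
  obtain ⟨rfl, rfl⟩ := h4
  exact h5

end Pool.Agent.Lib.P42tw
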